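import Mathlib

/-!
# Locality tensor products need not be locality vector spaces

Over every field `K` there is a locality vector space `E` of dimension `9` such that `E ⊗_⊤ E` with
the quotient locality relation is not a locality vector space.
-/

set_option autoImplicit false

open scoped TensorProduct

universe u

namespace Pool.Agent.Results.MP_16c542_al.NotLocality

/-- The polar set of `S` for the relation `r`. -/
def polar {X : Type*} (r : X → X → Prop) (S : Set X) : Set X := {x | ∀ y ∈ S, r x y}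

/-- `(E, r)` is a locality vector space over `K`: the relation `r` is symmetric and the polar set of
every subset of `E` is a linear subspace of `E`. -/
def IsLocalitySpace (K : Type*) [Field K] {E : Type*} [AddCommGroup E] [Module K E]
    (r : E → E → Prop) : Prop :=
  (∀ x y, r x y → r y x) ∧ ∀ S : Set E, ∃ W : Submodule K E, (W : Set E) = polar r S

section Tensor

variable {K E : Type*} [Field K] [AddCommGroup E] [Module K E]

/-- `X = ∑ i, v i ⊗ w i` is a decomposition of the tensor `X` with all `(v i, w i)` in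
`V ×_⊤ W`. -/
def IsDecomp (r : E → E → Prop) (V W : Submodule K E) (X : E ⊗[K] E) {n : ℕ}
    (v w : Fin n → E) : Prop :=
  (∀ i, v i ∈ V ∧ w i ∈ W ∧ r (v i) (w i)) ∧ X = ∑ i, v i ⊗ₜ[K] w i

/-- The locality tensor product `V ⊗_⊤ W`, as a subspace of `V ⊗ W ⊆ E ⊗ E`: the span of all
`v ⊗ w` with `v ∈ V`, `w ∈ W` and `v ⊤ w`. -/
def LocTensor (r : E → E → Prop) (V W : Submodule K E) : Submodule K (E ⊗[K] E) :=
  Submodule.span K {t | ∃ v ∈ V, ∃ w ∈ W, r v w ∧ t = v ⊗ₜ[K] w}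

/-- The quotient locality relation on `V ⊗_⊤ W`. -/
def TensorRel (r : E → E → Prop) (V W : Submodule K E) (X Y : LocTensor r V W) : Prop :=
  ∃ (m n : ℕ) (v w : Fin m → E) (v' w' : Fin n → E),
    IsDecomp r V W X v w ∧ IsDecomp r V W Y v' w' ∧
    ∀ i j, r (v i) (v' j) ∧ r (v i) (w' j) ∧ r (w i) (v' j) ∧ r (w i) (w' j)

/-- The polar set of some single element of `V ⊗_⊤ W` is not closed under addition. -/
def PolarNotClosed (r : E → E → Prop) (V W : Submodule K E) : Prop :=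
  ∃ X X' Y : LocTensor r V W,
    TensorRel r V W X Y ∧ TensorRel r V W X' Y ∧ ¬ TensorRel r V W (X + X') Y

end Tensor

/-! ### The example -/

open Polynomial

variable {K : Type*} [Field K]

/-- the cubic polynomial with the first four coordinates as coefficients -/
noncomputable def pol (e : Fin 9 → K) : K[X] :=
  C (e 0) + C (e 1) * X + C (e 2) * X ^ 2 + C (e 3) * X ^ 3

/-- the relation of the example -/
def rel (e f : Fin 9 → K) : Prop :=
  pol e * pol f + C ((e 4 + e 5) * (f 2 - f 3) + (f 4 + f 5) * (e 2 - e 3)) * X ^ 3 = 0 ∧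
    e 6 * f 5 + e 5 * f 6 = 0 ∧ e 7 * f 4 + e 4 * f 7 = 0 ∧ e 6 * f 6 = 0 ∧ e 7 * f 7 = 0

lemma pol_add (e f : Fin 9 → K) : pol (e + f) = pol e + pol f := by
  simp only [pol, Pi.add_apply, map_add]
  ring

lemma pol_smul (c : K) (e : Fin 9 → K) : pol (c • e) = C c * pol e := by
  simp only [pol, Pi.smul_apply, smul_eq_mul, map_mul]
  ring

lemma rel_symm {e f : Fin 9 → K} (h : rel e f) : rel f e := by
  obtain ⟨h1, h2, h3, h4, h5⟩ := h
  refine ⟨?_, ?_, ?_, ?_, ?_⟩
  · rw [← h1, add_comm ((f 4 + f 5) * (e 2 - e 3)), mul_comm (pol f)]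
  · rw [← h2]; ring
  · rw [← h3]; ring
  · rw [← h4]; ring
  · rw [← h5]; ring

lemma rel_zero (f : Fin 9 → K) : rel 0 f := by
  refine ⟨?_, ?_, ?_, ?_, ?_⟩ <;> simp [pol]

lemma rel_add {e e' f : Fin 9 → K} (h : rel e f) (h' : rel e' f) : rel (e + e') f := by
  obtain ⟨h1, h2, h3, h4, h5⟩ := h
  obtain ⟨g1, g2, g3, g4, g5⟩ := h'
  refine ⟨?_, ?_, ?_, ?_, ?_⟩
  · rw [pol_add]
    simp only [Pi.add_apply, map_add, map_sub, map_mul] at h1 g1 ⊢
    linear_combination h1 + g1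
  · simp only [Pi.add_apply]; linear_combination h2 + g2
  · simp only [Pi.add_apply]; linear_combination h3 + g3
  · simp only [Pi.add_apply]; linear_combination h4 + g4
  · simp only [Pi.add_apply]; linear_combination h5 + g5

lemma rel_smul (c : K) {e f : Fin 9 → K} (h : rel e f) : rel (c • e) f := by
  obtain ⟨h1, h2, h3, h4, h5⟩ := h
  refine ⟨?_, ?_, ?_, ?_, ?_⟩
  · rw [pol_smul]
    simp only [Pi.smul_apply, smul_eq_mul, map_add, map_sub, map_mul] at h1 ⊢
    linear_combination C c * h1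
  · simp only [Pi.smul_apply, smul_eq_mul]; linear_combination c * h2
  · simp only [Pi.smul_apply, smul_eq_mul]; linear_combination c * h3
  · simp only [Pi.smul_apply, smul_eq_mul]; linear_combination c * h4
  · simp only [Pi.smul_apply, smul_eq_mul]; linear_combination c * h5

/-- the polar set of `S`, as a subspace -/
def polarSub (S : Set (Fin 9 → K)) : Submodule K (Fin 9 → K) where
  carrier := polar rel S
  add_mem' := fun ha hb y hy => rel_add (ha y hy) (hb y hy)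
  zero_mem' := fun y _ => rel_zero y
  smul_mem' := fun c _ hx y hy => rel_smul c (hx y hy)

lemma rel_locality : IsLocalitySpace K (rel (K := K)) :=
  ⟨fun _ _ h => rel_symm h, fun S => ⟨polarSub S, rfl⟩⟩

/-- basis vectors -/
def b (i : Fin 9) : Fin 9 → K := Pi.single i 1

lemma rel_sum {n : ℕ} (a : Fin n → (Fin 9 → K)) (c : Fin n → K) (f : Fin 9 → K)
    (h : ∀ i, rel (a i) f) : rel (∑ i, c i • a i) f := by
  have : ∑ i, c i • a i ∈ polarSub {f} :=
    Submodule.sum_mem _ fun i _ => Submodule.smul_mem _ _ (by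
      intro y hy
      rw [Set.mem_singleton_iff.1 hy]
      exact h i)
  exact this f rfl

/-- coordinates of the vectors of the example, for `simp` -/
lemma pol_eq_zero {e : Fin 9 → K} (h : pol e = 0) : e 0 = 0 ∧ e 3 = 0 := by
  have h0 := congrArg (fun p => coeff p 0) h
  have h3 := congrArg (fun p => coeff p 3) h
  simp [pol, coeff_X, coeff_C] at h0 h3
  exact ⟨h0, h3⟩

lemma polar_x {c : Fin 9 → K} (h : rel (b 6 + b 7) c) : c 4 = 0 ∧ c 5 = 0 ∧ c 6 = 0 ∧ c 7 = 0 := by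
  obtain ⟨-, h2, h3, h4, h5⟩ := h
  simp [b] at h2 h3 h4 h5
  exact ⟨h3, h2, h4, h5⟩

lemma no_pairs {c d : Fin 9 → K} (hc : rel (b 6 + b 7) c) (hd : rel (b 6 + b 7) d)
    (h : rel c d) : c 0 * d 3 = 0 := by
  obtain ⟨c4, c5, c6, c7⟩ := polar_x hc
  obtain ⟨d4, d5, d6, d7⟩ := polar_x hd
  have h1 := h.1
  rw [c4, c5, d4, d5] at h1
  simp only [add_zero, zero_mul, map_zero] at h1
  rcases mul_eq_zero.1 h1 with h2 | h2
  · rw [(pol_eq_zero h2).1, zero_mul]
  · rw [(pol_eq_zero h2).2, mul_zero]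

lemma mem_loc {v w : Fin 9 → K} (h : rel v w) :
    v ⊗ₜ[K] w ∈ LocTensor rel (⊤ : Submodule K (Fin 9 → K)) ⊤ :=
  Submodule.subset_span ⟨v, trivial, w, trivial, h, rfl⟩

/-- `v ⊗ w ↦ w 8 • v` -/
noncomputable def contr : (Fin 9 → K) ⊗[K] (Fin 9 → K) →ₗ[K] (Fin 9 → K) :=
  TensorProduct.lift (LinearMap.mk₂ K (fun v w => (w : Fin 9 → K) 8 • (v : Fin 9 → K))
    (fun v v' w => by simp) (fun c v w => by simp [smul_smul, mul_comm])
    (fun v w w' => by simp [add_smul]) (fun c v w => by simp [smul_smul]))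

/-- `v ⊗ w ↦ v 0 * w 3` -/
noncomputable def func : (Fin 9 → K) ⊗[K] (Fin 9 → K) →ₗ[K] K :=
  TensorProduct.lift (LinearMap.mk₂ K (fun v w => (v : Fin 9 → K) 0 * (w : Fin 9 → K) 3)
    (fun v v' w => by simp [add_mul]) (fun c v w => by simp [mul_assoc])
    (fun v w w' => by simp [mul_add]) (fun c v w => by simp [mul_left_comm]))

lemma contr_tmul (v w : Fin 9 → K) : contr (v ⊗ₜ[K] w) = w 8 • v := by
  simp [contr]

lemma func_tmul (v w : Fin 9 → K) : func (v ⊗ₜ[K] w) = v 0 * w 3 := by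
  simp [func]

/-- the tensor `Y` -/
noncomputable def Y0 : (Fin 9 → K) ⊗[K] (Fin 9 → K) := b 0 ⊗ₜ[K] b 3 - b 1 ⊗ₜ[K] b 2

/-- left factors of the decomposition of `Y` that uses `u` -/
def vv (u : Fin 9 → K) : Fin 3 → (Fin 9 → K) := ![b 0 + u, u - b 1, -u]

/-- right factors of that decomposition -/
def ww : Fin 3 → (Fin 9 → K) := ![b 3, b 2, b 3 + b 2]

lemma Y0_eq (u : Fin 9 → K) : Y0 = ∑ j, vv u j ⊗ₜ[K] (ww j : Fin 9 → K) := by
  simp only [Fin.sum_univ_three, vv, ww, Matrix.cons_val_zero, Matrix.cons_val_one,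
    Matrix.cons_val, Y0, TensorProduct.add_tmul, TensorProduct.sub_tmul,
    TensorProduct.neg_tmul, TensorProduct.tmul_add]
  abel

lemma rel_vv (u : Fin 9 → K) (hu : u = b 4 ∨ u = b 5) (j : Fin 3) : rel (vv u j) (ww j) := by
  rcases hu with rfl | rfl <;> fin_cases j <;>
    simp [vv, ww, rel, pol, b] <;> ring

lemma Y0_mem : (Y0 : _ ⊗[K] _) ∈ LocTensor rel (⊤ : Submodule K (Fin 9 → K)) ⊤ := by
  rw [Y0_eq (b 4)]
  exact Submodule.sum_mem _ fun j _ => mem_loc (rel_vv _ (Or.inl rfl) j)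

lemma rel_x (x u : Fin 9 → K) (h : x = b 6 ∧ u = b 4 ∨ x = b 7 ∧ u = b 5) (j : Fin 3) :
    rel x (b 8) ∧ rel x (vv u j) ∧ rel x (ww j) ∧ rel (b 8) (vv u j) ∧
      rel (b 8) (ww j : Fin 9 → K) := by
  rcases h with ⟨rfl, rfl⟩ | ⟨rfl, rfl⟩ <;> fin_cases j <;>
    simp [vv, ww, rel, pol, b]

lemma rel_x8 (x : Fin 9 → K) (h : x = b 6 ∨ x = b 7) : rel x (b 8) := by
  rcases h with rfl | rfl
  · exact (rel_x _ _ (Or.inl ⟨rfl, rfl⟩) 0).1
  · exact (rel_x _ _ (Or.inr ⟨rfl, rfl⟩) 0).1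

/-- the element `x ⊗ y` for `x = b 6` or `x = b 7` -/
noncomputable def XX (x : Fin 9 → K) (h : x = b 6 ∨ x = b 7) :
    LocTensor rel (⊤ : Submodule K (Fin 9 → K)) ⊤ :=
  ⟨x ⊗ₜ[K] b 8, mem_loc (rel_x8 x h)⟩

/-- the element `Y` -/
noncomputable def YY : LocTensor rel (⊤ : Submodule K (Fin 9 → K)) ⊤ := ⟨Y0, Y0_mem⟩

lemma XX_rel (x u : Fin 9 → K) (h : x = b 6 ∧ u = b 4 ∨ x = b 7 ∧ u = b 5)
    (h' : x = b 6 ∨ x = b 7) : TensorRel rel ⊤ ⊤ (XX x h') (YY (K := K)) := by
  refine ⟨1, 3, fun _ => x, fun _ => b 8, vv u, ww, ⟨fun _ => ⟨trivial, trivial, rel_x8 x h'⟩, ?_⟩,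
    ⟨fun j => ⟨trivial, trivial, rel_vv u ?_ j⟩, Y0_eq u⟩, fun _ j => (rel_x x u h j).2⟩
  · simp [XX]
  · rcases h with h | h
    · exact Or.inl h.2
    · exact Or.inr h.2

lemma not_rel :
    ¬ TensorRel rel ⊤ ⊤ (XX (b 6) (Or.inl rfl) + XX (b 7) (Or.inr rfl)) (YY (K := K)) := by
  rintro ⟨m, n, v, w, v', w', ⟨h1, hX⟩, ⟨h2, hY⟩, h3⟩
  have hx : (b 6 + b 7 : Fin 9 → K) = ∑ i, w i 8 • v i := by
    have h := congrArg contr hX
    rw [map_sum] at h
    simp only [contr_tmul] at h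
    rw [← h]
    simp only [XX, Submodule.coe_add, map_add, contr_tmul]
    simp [b]
  have hv : ∀ j, rel (b 6 + b 7) (v' j) := fun j => by
    rw [hx]
    exact rel_sum _ _ _ fun i => (h3 i j).1
  have hw : ∀ j, rel (b 6 + b 7) (w' j) := fun j => by
    rw [hx]
    exact rel_sum _ _ _ fun i => (h3 i j).2.1
  have h := congrArg func hY
  rw [map_sum] at h
  simp only [func_tmul] at h
  rw [Finset.sum_eq_zero fun j _ => no_pairs (hv j) (hw j) (h2 j).2.2] at h
  simp only [YY, Y0, map_sub, func_tmul] at h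
  simp [b] at h

/-- Over every field `K` there is a locality vector space `E` of dimension `9`, such that the
locality tensor product `E ⊗_⊤ E` with the quotient locality relation is not a locality vector
space; in fact the polar set of some single element is not closed under addition. -/
theorem result (K : Type u) [Field K] :
    ∃ (E : Type u) (_ : AddCommGroup E) (_ : Module K E) (r : E → E → Prop),
      Module.finrank K E = 9 ∧ IsLocalitySpace K r ∧
      PolarNotClosed r (⊤ : Submodule K E) ⊤ ∧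
      ¬ IsLocalitySpace K (TensorRel r (⊤ : Submodule K E) ⊤) := by
  have h1 : TensorRel rel ⊤ ⊤ (XX (b 6) (Or.inl rfl)) (YY (K := K)) :=
    XX_rel _ _ (Or.inl ⟨rfl, rfl⟩) _
  have h2 : TensorRel rel ⊤ ⊤ (XX (b 7) (Or.inr rfl)) (YY (K := K)) :=
    XX_rel _ _ (Or.inr ⟨rfl, rfl⟩) _
  refine ⟨Fin 9 → K, inferInstance, inferInstance, rel, by simp, rel_locality,
    ⟨_, _, _, h1, h2, not_rel⟩, fun h => ?_⟩
  obtain ⟨W, hW⟩ := h.2 {YY (K := K)}
  have hmem : ∀ X, X ∈ W ↔ TensorRel rel ⊤ ⊤ X (YY (K := K)) := by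
    intro X
    rw [← SetLike.mem_coe, hW]
    exact ⟨fun h => h _ rfl, fun h y hy => by rw [Set.mem_singleton_iff.1 hy]; exact h⟩
  exact not_rel ((hmem _).1 (W.add_mem ((hmem _).2 h1) ((hmem _).2 h2)))

end Pool.Agent.Results.MP_16c542_al.NotLocality
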